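import Pool.Agent.Y586.OD.Defs
import Pool.Agent.H547S1.T_PBC
import Pool.Agent.H547S1.T_PRT
import Pool.Agent.H547S1.T_OBC
import Pool.Agent.H547S1.T_OBT

/-!
# Project OD, the new scheme: algorithms, circuits, correctness and security
-/

set_option autoImplicit false

namespace Pool.Agent.Y925.OD

open Pool.Agent.H547R6 Pool.Agent.H547R7 Pool.Agent.H547R8 Pool.Agent.NPC Pool.Agent.H547S1
open Pool.Agent.H583R2 Pool.Agent.H545R2.KS Pool.Agent.Y586.OD

/-! ### the algorithms -/

section

variable {α : Type} [H583R2.TEnc α]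

theorem pf_slD {S : Scheme} (hD : PolyTime S.dec) {n : α → ℕ} {sk v : α → List Bool}
    (hn : PF n) (hsk : PF sk) (hv : PF v) : PF (fun a => slD S (n a) (sk a) (v a)) := by
  have hm := pf_eval hn S.len
  refine (PF.ite (PF.lt hm (OBT_count hv)) (PF.const true)
    (PF.ite (PF.natEq (OBT_count hv) hm)
      (PRT_dec ((pf_of_polyTime hD).comp (PBT_c3 (PBT_ones hn) hsk (PF.take hm hv))))
      (PF.const false))).congr fun a => ?_
  unfold slD
  simp only [decide_eq_true_eq]

theorem pf_decD (τ : Fin 3) {S : Scheme} (hD : PolyTime S.dec) {n : α → ℕ}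
    {sk u : α → List Bool} (hn : PF n) (hsk : PF sk) (hu : PF u) :
    PF (fun a => decD τ S (n a) (sk a) (u a)) := by
  have hm := PF.mul (PF.const 2) (pf_eval hn S.len)
  have ht := PF.take hm hu
  exact PBT_Tf τ (PF.listGetD hm hu (PF.const false))
    (PF.listGetD (PF.add hm (PF.const 1)) hu (PF.const false))
    (pf_slD hD hn hsk ht) (pf_slD hD hn hsk (PBT_cpl ht))

end

theorem t_DT : S_DT := by
  intro τ S hE hD
  refine ⟨fun z => fit (S.len.eval (spl z).1.length) (S.enc z) ++
      (cpl (fit (S.len.eval (spl z).1.length) (S.enc z)) ++ [false, true]),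
    fun z => [decD τ S (spl z).1.length (spl (spl z).2).1 (spl (spl z).2).2], ?_, ?_, ?_, ?_⟩
  · apply polyTime_of_pf
    have hn := PF.length PBT_p1
    have hf := PBT_fit (pf_eval hn S.len) (pf_of_polyTime hE)
    exact PF.append hf (PF.append (PBT_cpl hf) (PF.const [false, true]))
  · apply polyTime_of_pf
    have hn := PF.length PBT_p1
    exact PF.cons (pf_decD τ hD hn PBT_p2 PBT_q2) (PF.const [])
  · intro n pk b r
    simp only [c4, spl_pairBits, PBT_length_ones]
  · intro n sk u
    simp only [c3, spl_pairBits, PBT_length_ones]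

/-! ### correctness and security -/

theorem length_cpl (l : List Bool) : (cpl l).length = l.length := List.length_map _

theorem count_cpl (l : List Bool) : l.count true + (cpl l).count true = l.length := by
  induction l with
  | nil => rfl
  | cons b l ih =>
    have h : cpl (b :: l) = (!b) :: cpl l := rfl
    rw [h, List.count_cons, List.count_cons, List.length_cons, ← ih]
    cases b <;> simp <;> omega

theorem cpl_append (l l' : List Bool) : cpl (l ++ l') = cpl l ++ cpl l' := List.map_append

theorem cpl_cpl (l : List Bool) : cpl (cpl l) = l := by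
  unfold cpl
  rw [List.map_map]
  have : ((fun b => !b) ∘ fun b => !b) = (id : Bool → Bool) := by
    funext b
    simp
  rw [this, List.map_id]

theorem decD_eq (τ : Fin 3) (S : Scheme) (n : ℕ) (sk c : List Bool)
    (hc : c.length = S.len.eval n) :
    decD τ S n sk (c ++ (cpl c ++ [false, true])) =
      decide (S.dec (c3 (ones n) sk c) = [true]) := by
  have hl : (c ++ cpl c).length = 2 * S.len.eval n := by
    rw [List.length_append, length_cpl, hc]
    ring
  have hu : c ++ (cpl c ++ [false, true]) = (c ++ cpl c) ++ [false, true] := by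
    rw [List.append_assoc]
  have h1 : ((c ++ cpl c) ++ [false, true]).getD (2 * S.len.eval n) false = false := by
    rw [List.getD_append_right _ _ _ _ (by omega), hl]
    simp
  have h2 : ((c ++ cpl c) ++ [false, true]).getD (2 * S.len.eval n + 1) false = true := by
    rw [List.getD_append_right _ _ _ _ (by omega), hl]
    simp
  have h3 : ((c ++ cpl c) ++ [false, true]).take (2 * S.len.eval n) = c ++ cpl c :=
    List.take_left' hl
  have hcnt : (c ++ cpl c).count true = S.len.eval n := by
    rw [List.count_append, count_cpl, hc]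
  have h4 : slD S n sk (c ++ cpl c) = decide (S.dec (c3 (ones n) sk c) = [true]) := by
    unfold slD
    rw [hcnt, if_neg (lt_irrefl _), if_pos rfl, List.take_left' hc]
  unfold decD
  rw [hu, h1, h2, h3, h4]
  unfold Tf
  simp

theorem ct_eq (τ : Fin 3) (S : Scheme) (encB decB : List Bool → List Bool)
    (h : SpD τ S encB decB) (n : ℕ) (s : List Bool) (b : Bool) (r : List Bool) :
    (dsch S encB decB).ct n s b r =
      S.ct n s b r ++ (cpl (S.ct n s b r) ++ [false, true]) := by
  have hL : (dsch S encB decB).len.eval n = 2 * S.len.eval n + 2 := by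
    simp [dsch]
  have h1 : (S.ct n s b r).length = S.len.eval n := PBC_fit_len _ _
  unfold Scheme.ct at h1 ⊢
  rw [hL]
  change fit _ (encB _) = _
  rw [h.1]
  apply PBC_fit_self
  rw [List.length_append, List.length_append, length_cpl, PBC_fit_len]
  simp
  ring

theorem t_DS : S_DS := by
  intro τ S encB decB hE hD h hS
  obtain ⟨⟨p1, p2, p3, p4⟩, hc, hs⟩ := hS
  refine ⟨⟨p1, p2, hE, hD⟩, fun b => ?_, fun A t hA => ?_⟩
  · -- correctness
    intro k
    obtain ⟨N, hN⟩ := hc b k
    refine ⟨N, fun n hn => le_trans ?_ (hN n hn)⟩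
    have hle : (dsch S encB decB).err n b ≤ S.err n b := by
      unfold Scheme.err pr
      apply div_le_div_of_nonneg_right _ (by positivity)
      have hsub : (Finset.univ.filter fun w : (Fin ((dsch S encB decB).g.eval n) → Bool) ×
          (Fin ((dsch S encB decB).e.eval n) → Bool) =>
          decide ((dsch S encB decB).dec (c3 (ones n) ((dsch S encB decB).sk
            (pairBits (ones n) (List.ofFn w.1))) ((dsch S encB decB).ct n (List.ofFn w.1) b
              (List.ofFn w.2))) ≠ [b]) = true) ⊆
          (Finset.univ.filter fun w : (Fin (S.g.eval n) → Bool) × (Fin (S.e.eval n) → Bool) =>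
          decide (S.dec (c3 (ones n) (S.sk (pairBits (ones n) (List.ofFn w.1)))
            (S.ct n (List.ofFn w.1) b (List.ofFn w.2))) ≠ [b]) = true) := by
        intro w hw
        simp only [Finset.mem_filter, Finset.mem_univ, true_and, decide_eq_true_eq] at hw ⊢
        intro hd
        apply hw
        rw [ct_eq τ S encB decB h]
        change decB _ = [b]
        rw [h.2]
        change [decD τ S n (S.sk (pairBits (ones n) (List.ofFn w.1))) _] = [b]
        have hcl : (S.ct n (List.ofFn w.1) b (List.ofFn w.2)).length = S.len.eval n :=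
          PBC_fit_len _ _
        rw [decD_eq τ S n _ _ hcl]
        have hd2 : (decide (S.dec (c3 (ones n) (S.sk (pairBits (ones n) (List.ofFn w.1)))
            (S.ct n (List.ofFn w.1) b (List.ofFn w.2))) = [true])) = b := by
          rw [show S.dec (c3 (ones n) (S.sk (pairBits (ones n) (List.ofFn w.1)))
            (S.ct n (List.ofFn w.1) b (List.ofFn w.2))) = [b] from hd]
          cases b <;> simp
        exact congrArg (fun x => [x]) hd2
      exact_mod_cast Finset.card_le_card hsub
    have h0 : 0 ≤ (dsch S encB decB).err n b := by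
      unfold Scheme.err pr
      positivity
    rw [abs_of_nonneg h0, abs_of_nonneg (h0.trans hle)]
    exact hle
  · -- security
    have hA' : PolyTime fun z => A (c4 (spl z).1 (spl (spl z).2).1
        ((spl (spl (spl z).2).2).1 ++ (cpl (spl (spl (spl z).2).2).1 ++ [false, true]))
        (spl (spl (spl z).2).2).2) := by
      apply polyTime_of_pf
      exact (pf_of_polyTime hA).comp (PBT_c4 PBT_p1 PBT_p2
        (PF.append PBT_p3 (PF.append (PBT_cpl PBT_p3) (PF.const [false, true]))) PBT_q3)
    have h1 := hs _ t hA'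
    have h2 : ∀ (n : ℕ) (b : Bool), (dsch S encB decB).acp A t n b =
        S.acp (fun z => A (c4 (spl z).1 (spl (spl z).2).1
        ((spl (spl (spl z).2).2).1 ++ (cpl (spl (spl (spl z).2).2).1 ++ [false, true]))
        (spl (spl (spl z).2).2).2)) t n b := by
      intro n b
      unfold Scheme.acp
      simp only [ct_eq τ S encB decB h, c4, spl_pairBits]
      rfl
    simp only [h2]
    exact h1

/-! ### the circuits -/

theorem avail_app {n : ℕ} (l' l : List (BF n)) (f : BF n) (h : Avail l f) :
    Avail (l' ++ l) f := by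
  rcases h with h | h
  · exact Or.inl (List.mem_append_right _ h)
  · exact Or.inr h

theorem subst {B : Set BFun} {k : ℕ} {g : (Fin k → Bool) → Bool}
    (hg : Gen B (Fin k) g) : ∃ c : ℕ, ∀ (n : ℕ) (l : List (BF n)), Gates B n l →
      ∀ a : Fin k → BF n, (∀ j, Avail l (a j)) →
      ∃ l', Gates B n (l' ++ l) ∧ l'.length ≤ c ∧ Avail (l' ++ l) (fun x => g fun j => a j x) := by
  induction hg with
  | var i =>
    refine ⟨0, fun n l hl a ha => ⟨[], by simpa using hl, by simp, ?_⟩⟩
    simpa using ha i
  | app k' f hf h hh ih =>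
    choose c hc using ih
    refine ⟨(∑ j, c j) + 1, fun n l hl a ha => ?_⟩
    have key : ∀ s : Finset (Fin k'), ∃ l', Gates B n (l' ++ l) ∧ l'.length ≤ ∑ j ∈ s, c j ∧
        ∀ j ∈ s, Avail (l' ++ l) (fun x => h j fun i => a i x) := by
      intro s
      induction s using Finset.induction_on with
      | empty => exact ⟨[], by simpa using hl, by simp, by simp⟩
      | insert j s hj ihs =>
        obtain ⟨l1, h1, h2, h3⟩ := ihs
        obtain ⟨l2, h4, h5, h6⟩ := hc j n (l1 ++ l) h1 a
          (fun i => avail_app _ _ _ (ha i))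
        refine ⟨l2 ++ l1, by rw [List.append_assoc]; exact h4, ?_, ?_⟩
        · rw [List.length_append, Finset.sum_insert hj]
          omega
        · intro i hi
          rw [List.append_assoc]
          rcases Finset.mem_insert.1 hi with rfl | hi
          · exact h6
          · exact avail_app _ _ _ (h3 i hi)
    obtain ⟨l1, h1, h2, h3⟩ := key Finset.univ
    refine ⟨(fun x => f fun j => h j fun i => a i x) :: l1, ?_, ?_, ?_⟩
    · exact Gates.gate (l1 ++ l) k' f (fun j x => h j fun i => a i x) hf
        (fun j => h3 j (Finset.mem_univ j)) h1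
    · rw [List.length_cons]; omega
    · exact Or.inl List.mem_cons_self

/-- a ternary operation applied to variables -/
theorem op3_var {B : Set BFun} {o : Bool → Bool → Bool → Bool} (h : Op3 B o) :
    ∃ c : ℕ, ∀ (n : ℕ) (i j k : Fin n), Computes B n c fun x => o (x i) (x j) (x k) := by
  obtain ⟨c, hc⟩ := subst h
  refine ⟨c, fun n i j k => ?_⟩
  obtain ⟨l', h1, h2, h3⟩ := hc n [] Gates.nil ![fun x => x i, fun x => x j, fun x => x k] (by
    intro m
    fin_cases m
    · exact Or.inr ⟨i, rfl⟩
    · exact Or.inr ⟨j, rfl⟩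
    · exact Or.inr ⟨k, rfl⟩)
  exact ⟨l' ++ [], h1, by simpa using h2, h3⟩

theorem comp_var (B : Set BFun) {n : ℕ} (i : Fin n) (s : ℕ) :
    Computes B n s fun x => x i := ⟨[], Gates.nil, Nat.zero_le _, Or.inr ⟨i, rfl⟩⟩

/-- the gadget with a constant -/
theorem tf_const {B : Set BFun} {τ : Fin 3} (h : Op3 B (Gm τ)) :
    ∃ c : ℕ, ∀ (n : ℕ) (i j : Fin n) (b : Bool),
      Computes B n c fun x => Tf τ (x i) (x j) b b := by
  obtain ⟨c, hc⟩ := op3_var h
  refine ⟨c, fun n i j b => ?_⟩
  have hτ : τ = 0 ∨ τ = 1 ∨ τ = 2 := by fin_cases τ <;> simp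
  rcases hτ with rfl | rfl | rfl
  · cases b
    · have e : (fun x : Fin n → Bool => Tf 0 (x i) (x j) false false) = fun x => x i := by
        funext x
        simp [Tf]
      rw [e]
      exact comp_var B i c
    · have e : (fun x : Fin n → Bool => Tf 0 (x i) (x j) true true) =
          fun x => Gm 0 (x i) (x j) (x j) := by
        funext x
        simp [Tf, Gm]
      rw [e]
      exact hc n i j j
  · cases b
    · have e : (fun x : Fin n → Bool => Tf 1 (x i) (x j) false false) =
          fun x => Gm 1 (x j) (x i) (x i) := by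
        funext x
        simp [Tf, Gm]
      rw [e]
      exact hc n j i i
    · have e : (fun x : Fin n → Bool => Tf 1 (x i) (x j) true true) = fun x => x j := by
        funext x
        simp [Tf]
      rw [e]
      exact comp_var B j c
  · cases b
    · have e : (fun x : Fin n → Bool => Tf 2 (x i) (x j) false false) = fun x => x i := by
        funext x
        cases hi : x i <;> cases hj : x j <;> simp [Tf]
      rw [e]
      exact comp_var B i c
    · have e : (fun x : Fin n → Bool => Tf 2 (x i) (x j) true true) = fun x => x j := by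
        funext x
        cases hi : x i <;> cases hj : x j <;> simp [Tf]
      rw [e]
      exact comp_var B j c

/-- the decryption of the original scheme, as a function of the ciphertext -/
def DF (S : Scheme) (z : List Bool) : List Bool :=
  [decide (S.dec (c3 (spl (spl z).1).1 (spl (spl z).1).2 (spl z).2) = [true])]

theorem pf_DF (S : Scheme) (hD : PolyTime S.dec) : PF (DF S) := by
  have h1 : PF (fun z : List Bool => (spl z).1) := PF.fst' (PF.spl PF.id)
  have h2 : PF (fun z : List Bool => (spl z).2) := PF.snd' (PF.spl PF.id)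
  exact PF.cons (PRT_dec ((pf_of_polyTime hD).comp (PBT_c3 (PF.fst' (PF.spl h1))
    (PF.snd' (PF.spl h1)) h2))) (PF.const [])

/-- the new decryption on the first `2 m` bits -/
theorem sl_eq (S : Scheme) (n m : ℕ) (sk : List Bool) (hm : S.len.eval n = m)
    (h2 : m ≤ 2 * m) :
    (fun v : Fin (2 * m) → Bool => slD S n sk (List.ofFn v)) =
      slice (2 * m) m (fun v => (fun r : Fin m → Bool =>
        decide (S.dec (c3 (ones n) sk (List.ofFn r)) = [true])) fun i => v (Fin.castLE h2 i)) := by
  funext v
  unfold slice slD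
  beta_reduce
  rw [OBC_wt, ← OBC_take h2, hm]
  rcases lt_trichotomy m ((List.ofFn v).count true) with h1 | h1 | h1
  · rw [if_pos h1]
    simp [h1]
  · rw [if_neg (by omega), if_pos h1.symm]
    simp [← h1]
  · rw [if_neg (by omega), if_neg (by omega)]
    have h2 : ¬ (m < (List.ofFn v).count true) := by omega
    have h3 : ¬ ((List.ofFn v).count true = m) := by omega
    simp [h2, h3]

theorem sl_nc (S : Scheme) (n m : ℕ) (sk : List Bool) (hm : S.len.eval n = m) (h1 : 1 ≤ m)
    (s : ℕ) (hM : MC (2 * m) s (fun v => slD S n sk (List.ofFn v))) :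
    Computes MB (2 * m) s (fun v => slD S n sk (List.ofFn v)) := by
  rcases hM with ⟨b, hb⟩ | hM
  · exfalso
    have h1' := hb fun _ => true
    have h0 := hb fun _ => false
    have e1 : (List.ofFn fun _ : Fin (2 * m) => true).count true = 2 * m := by
      rw [List.ofFn_const, List.count_replicate_self]
    have e0 : (List.ofFn fun _ : Fin (2 * m) => false).count true = 0 := by
      rw [List.ofFn_const]
      simp [List.count_replicate]
    unfold slD at h1' h0
    beta_reduce at h1' h0
    rw [e1, hm, if_pos (by omega)] at h1'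
    rw [e0, hm, if_neg (by omega), if_neg (by omega)] at h0
    rw [← h0] at h1'
    exact Bool.noConfusion h1'
  · exact hM

/-- the renaming: the last two variables go to the front -/
def sg (m : ℕ) : Fin (2 * m + 2) → Fin (2 * m + 2) :=
  Fin.cons ⟨2 * m, by omega⟩ (Fin.cons ⟨2 * m + 1, by omega⟩ fun i : Fin (2 * m) =>
    ⟨i, by omega⟩)

theorem dec_eq (τ : Fin 3) (S : Scheme) (n m : ℕ) (sk : List Bool) (hm : S.len.eval n = m)
    (z : Fin (2 * m + 2) → Bool) :
    decD τ S n sk (List.ofFn z) =
      Tf τ (z ⟨2 * m, by omega⟩) (z ⟨2 * m + 1, by omega⟩)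
        (slD S n sk (List.ofFn fun i : Fin (2 * m) => z (sg m i.succ.succ)))
        (slD S n sk (List.ofFn fun i : Fin (2 * m) => !z (sg m i.succ.succ))) := by
  have h1 : (List.ofFn z).getD (2 * m) false = z ⟨2 * m, by omega⟩ := by
    rw [List.getD_eq_getElem _ _ (by rw [List.length_ofFn]; omega), List.getElem_ofFn]
  have h2 : (List.ofFn z).getD (2 * m + 1) false = z ⟨2 * m + 1, by omega⟩ := by
    rw [List.getD_eq_getElem _ _ (by rw [List.length_ofFn]; omega), List.getElem_ofFn]
  have h3 : (List.ofFn z).take (2 * m) =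
      List.ofFn fun i : Fin (2 * m) => z (sg m i.succ.succ) := by
    rw [OBC_take (by omega : 2 * m ≤ 2 * m + 2)]
    rfl
  unfold decD
  rw [hm, h1, h2, h3, PBC_cpl]

theorem t_DC (hck : S_CK3) (hg : S_GDM) (hs : S_SLI) : S_DC := by
  intro B τ S encB decB hop hsk hdec h
  obtain ⟨q, hq⟩ := hck (DF S) (polyTime_of_pf (pf_DF S hdec))
  obtain ⟨c, hc⟩ := hg B τ hop
  obtain ⟨c0, hc0⟩ := tf_const hop
  obtain ⟨P, hP⟩ := PBC_len { S with pk := S.sk } hsk
  refine ⟨Polynomial.C c0 + Polynomial.C c * (4 * (2 * S.len + 1) ^ 3 +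
    2 * q.comp (P + S.len) + 1), fun n hn s hls => ?_⟩
  have hL : (dsch S encB decB).len.eval n = 2 * S.len.eval n + 2 := by
    simp [dsch]
  have hsk' := hP n s hls
  have e0 : ∀ (L : ℕ), (fun z : Fin L → Bool =>
      decide ((dsch S encB decB).dec (c3 (ones n) ((dsch S encB decB).sk (pairBits (ones n) s))
        (List.ofFn z)) = [true])) =
      fun z => decD τ S n (S.sk (pairBits (ones n) s)) (List.ofFn z) := by
    intro L
    funext z
    change decide (decB (c3 (ones n) (S.sk (pairBits (ones n) s)) (List.ofFn z)) = [true]) = _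
    rw [h.2]
    simp
  rw [e0, hL]
  have hx : (pairBits (ones n) (S.sk (pairBits (ones n) s))).length ≤ P.eval n := by
    refine le_trans ?_ hsk'
    change _ ≤ (pairBits (ones n) (pairBits (S.sk (pairBits (ones n) s)) [])).length
    rw [pairBits_length, pairBits_length, pairBits_length]
    omega
  generalize S.sk (pairBits (ones n) s) = sk at hx ⊢
  obtain ⟨m, hm⟩ : ∃ m, S.len.eval n = m := ⟨_, rfl⟩
  rw [hm]
  have hQ : (Polynomial.C c0 + Polynomial.C c * (4 * (2 * S.len + 1) ^ 3 +
      2 * q.comp (P + S.len) + 1)).eval n =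
      c0 + c * (4 * (2 * m + 1) ^ 3 + 2 * q.eval (P.eval n + m) + 1) := by
    simp only [Polynomial.eval_mul, Polynomial.eval_add, Polynomial.eval_C, Polynomial.eval_comp,
      Polynomial.eval_pow, Polynomial.eval_one, Polynomial.eval_ofNat, hm]
  rw [hQ]
  rcases Nat.eq_zero_or_pos m with h0 | h1
  · -- no ciphertext bits
    subst h0
    have e : (fun z : Fin (2 * 0 + 2) → Bool => decD τ S n sk (List.ofFn z)) =
        fun z => Tf τ (z ⟨0, by omega⟩) (z ⟨1, by omega⟩) (slD S n sk []) (slD S n sk []) := by
      funext z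
      rw [dec_eq τ S n 0 sk hm z]
      rfl
    rw [e]
    exact OBC_mono (hc0 _ _ _ _) (Nat.le_add_right _ _)
  · have a1 : Comp0 m (q.eval ((pairBits (ones n) sk).length + m + 0))
        (fun r : Fin m → Bool => decide (S.dec (c3 (ones n) sk (List.ofFn r)) = [true])) := by
      have := hq (pairBits (ones n) sk) m 0 h1
      unfold DF at this
      simp only [spl_pairBits] at this
      exact this
    have h2 : m ≤ 2 * m := by omega
    have a2 := H547R9.t_REN.2.1 m (2 * m) _ (fun i => Fin.castLE h2 i) _ a1
    have a3 := hs (2 * m) _ m _ a2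
    rw [← sl_eq S n m sk hm h2] at a3
    have a4 := sl_nc S n m sk hm h1 _ a3
    have a5 := hc _ _ _ a4
    have a6 := H547R9.t_REN.1 B _ (2 * m + 2) _ (sg m) _ a5
    have e : (fun z : Fin (2 * m + 2) → Bool => decD τ S n sk (List.ofFn z)) =
        fun z => Tf τ (z (sg m 0)) (z (sg m 1))
          (slD S n sk (List.ofFn fun i : Fin (2 * m) => z (sg m i.succ.succ)))
          (slD S n sk (List.ofFn fun i : Fin (2 * m) => !z (sg m i.succ.succ))) := by
      funext z
      exact dec_eq τ S n m sk hm z
    rw [e]
    refine OBC_mono a6 ?_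
    have b1 : q.eval ((pairBits (ones n) sk).length + m + 0) ≤ q.eval (P.eval n + m) :=
      H545R2.KS.eval_mono q (by omega)
    refine le_trans ?_ (Nat.le_add_left _ _)
    refine Nat.mul_le_mul_left _ ?_
    omega

end Pool.Agent.Y925.OD
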